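import Pool.Agent.Helper69.OT.Side

/-!
# Frames: relabelling the six directions (project OT, MP_409f7f_co)

A frame is a relabelling of the directions that respects negation and perpendicularity.  Closed
ladders and realizations of a side are transported along frames.
-/

set_option autoImplicit false

namespace Pool.Agent.Helper69.OT

open Pool.Agent.Helper17.UF Relation

/-- A frame relabels the directions. -/
structure IsFrame (g : Dir → Dir) : Prop where
  neg : ∀ d, g d.neg = (g d).neg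
  perp : ∀ d t, Dir.perp (g d) (g t) = Dir.perp d t

/-- The positive direction of an axis. -/
def posDir (a : Fin 3) : Dir := if a = 0 then Dir.px else if a = 1 then Dir.py else Dir.pz

/-- The corner `k` lies on the side `d`. -/
def cval (k : Fin 3 → Bool) (d : Dir) : Bool := k d.axis == pos d

/-- The corner that the frame `g` sends to the corner `k`. -/
def pull (g : Dir → Dir) (k : Fin 3 → Bool) : Fin 3 → Bool := fun a => cval k (g (posDir a))

/-- The inverse of a frame. -/
noncomputable def finv (g : Dir → Dir) : Dir → Dir := @Function.invFun _ _ ⟨Dir.px⟩ g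

section aux

theorem frm_same : ∀ d t : Dir, Dir.perp d t = false → t = d ∨ t = d.neg := by decide

theorem frm_perp_self : ∀ d : Dir, Dir.perp d d = false := by decide

theorem frm_ne_neg : ∀ d : Dir, d ≠ d.neg := by decide

theorem cval_neg (k : Fin 3 → Bool) : ∀ d : Dir, cval k d.neg = !cval k d := by
  intro d
  cases d <;> simp [cval, Dir.neg, Dir.axis, pos]

theorem cval_cor : ∀ d t l : Dir, Perp3 d t l →
    cval (cor d t l) d = true ∧ cval (cor d t l) t = true ∧ cval (cor d t l) l = true := by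
  decide

theorem posDir_axis : ∀ d : Dir, posDir d.axis = if pos d then d else d.neg := by decide

theorem frm_axes : ∀ d t l : Dir, Perp3 d t l → ∀ a : Fin 3,
    (a = d.axis) ∨ (a ≠ d.axis ∧ a = t.axis) ∨ (a ≠ d.axis ∧ a ≠ t.axis ∧ a = l.axis) := by
  decide

theorem frm_cross : ∀ d t l : Dir, Perp3 d t l →
    Dir.cross d t = l ∨ (Dir.cross d t = l.neg) := by decide

theorem frm_cross_perp3 : ∀ d t : Dir, Dir.perp d t = true →
    Perp3 d t (Dir.cross d t) ∧ Perp3 d t (Dir.cross d t).neg := by decide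

theorem frm_perp3_neg : ∀ d t l : Dir, Perp3 d t l → Perp3 d t l.neg ∧ Perp3 d t.neg l := by
  decide

end aux

namespace IsFrame

variable {g : Dir → Dir}

theorem id : IsFrame (fun d => d) := ⟨fun _ => rfl, fun _ _ => rfl⟩

theorem comp {g h : Dir → Dir} (hg : IsFrame g) (hh : IsFrame h) :
    IsFrame (fun d => g (h d)) :=
  ⟨fun d => by rw [hh.neg, hg.neg], fun d t => by rw [hg.perp, hh.perp]⟩

theorem inj (hg : IsFrame g) : Function.Injective g := by
  intro d t h
  have h1 : Dir.perp d t = false := by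
    rw [← hg.perp, h]
    exact frm_perp_self _
  rcases frm_same d t h1 with h2 | h2
  · exact h2.symm
  · exfalso
    rw [h2, hg.neg] at h
    exact frm_ne_neg _ h

theorem surj (hg : IsFrame g) : Function.Surjective g :=
  Finite.injective_iff_surjective.mp hg.inj

theorem bij (hg : IsFrame g) : Function.Bijective g := ⟨hg.inj, hg.surj⟩

theorem finv_apply (hg : IsFrame g) (d : Dir) : finv g (g d) = d :=
  @Function.leftInverse_invFun _ _ ⟨Dir.px⟩ _ hg.inj d

theorem apply_finv (hg : IsFrame g) (d : Dir) : g (finv g d) = d :=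
  @Function.rightInverse_invFun _ _ ⟨Dir.px⟩ _ hg.surj d

theorem finv_isFrame (hg : IsFrame g) : IsFrame (finv g) := by
  refine ⟨fun d => ?_, fun d t => ?_⟩
  · apply hg.inj
    rw [hg.apply_finv, hg.neg, hg.apply_finv]
  · rw [← hg.perp, hg.apply_finv, hg.apply_finv]

theorem perp3 (hg : IsFrame g) {d t l : Dir} : Perp3 (g d) (g t) (g l) ↔ Perp3 d t l := by
  unfold Perp3
  rw [hg.perp, hg.perp, hg.perp]

theorem pull_cor (hg : IsFrame g) {d t l : Dir} (h : Perp3 d t l) :
    pull g (cor (g d) (g t) (g l)) = cor d t l := by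
  have h' := hg.perp3.mpr h
  obtain ⟨v1, v2, v3⟩ := cval_cor _ _ _ h'
  have key : ∀ s : Dir, cval (cor (g d) (g t) (g l)) (g s) = true →
      cval (cor (g d) (g t) (g l)) (g (posDir s.axis)) = pos s := by
    intro s hs
    rw [posDir_axis]
    cases hp : pos s
    · simp only [Bool.false_eq_true, if_false]
      rw [hg.neg, cval_neg, hs]
      rfl
    · simp only [if_true]
      exact hs
  funext a
  unfold pull
  rcases frm_axes d t l h a with h1 | ⟨h1, h2⟩ | ⟨h1, h2, h3⟩
  · rw [h1, key d v1]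
    simp [cor]
  · rw [h2, key t v2]
    rw [h2] at h1
    simp [cor, h1]
  · rw [h3, key l v3]
    rw [h3] at h1 h2
    simp [cor, h1, h2]

end IsFrame

section ecol

/-- The colour of an edge, computed with either direction along it. -/
theorem ecol_eq (χ : (Fin 3 → Bool) → Bool) {d t l : Dir} (h : Perp3 d t l) :
    ecol χ d t = if χ (cor d t l) = χ (cor d t l.neg) then some (χ (cor d t l)) else none := by
  unfold ecol
  rcases frm_cross d t l h with h1 | h1
  · rw [h1]
  · rw [h1, Dir.neg_neg]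
    by_cases h2 : χ (cor d t l) = χ (cor d t l.neg)
    · rw [if_pos h2.symm, if_pos h2, h2]
    · rw [if_neg (fun h3 => h2 h3.symm), if_neg h2]

theorem IsFrame.ecol_map {g : Dir → Dir} (hg : IsFrame g) {χ χ1 : (Fin 3 → Bool) → Bool}
    {d t : Dir} (hp : Dir.perp d t = true)
    (h : ∀ l, Perp3 d t l → χ1 (cor (g d) (g t) (g l)) = χ (cor d t l)) :
    ecol χ1 (g d) (g t) = ecol χ d t := by
  obtain ⟨p1, p2⟩ := frm_cross_perp3 d t hp
  rw [ecol_eq χ p1, ecol_eq χ1 (hg.perp3.mpr p1), ← hg.neg, h _ p1, h _ p2]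

end ecol

section transport

variable {ι : Type} {nb : ι → Dir → Option ι} {g : Dir → Dir}

/-- The brick face that corresponds to a relabelled one. -/
def fmap (g : Dir → Dir) (A : BF ι) : BF ι := (A.1, g A.2)

theorem NbOK.comp (H : NbOK nb) (hg : IsFrame g) : NbOK (fun i d => nb i (g d)) where
  symm i d j h := by
    show nb j (g d.neg) = some i
    rw [hg.neg]
    exact H.symm _ _ _ h
  irrefl i d := H.irrefl _ _
  uniq i d t j h1 h2 := hg.inj (H.uniq _ _ _ _ h1 h2)
  good i d t j k hp h1 h2 := H.good _ _ _ _ _ (by rw [hg.perp]; exact hp) h1 h2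

theorem bgraph_comp (hg : IsFrame g) : bgraph (fun i d => nb i (g d)) = bgraph nb := by
  ext i j
  show (i ≠ j ∧ ((∃ d, nb i (g d) = some j) ∨ ∃ d, nb j (g d) = some i)) ↔
    (i ≠ j ∧ ((∃ d, nb i d = some j) ∨ ∃ d, nb j d = some i))
  rw [← hg.surj.exists (p := fun d => nb i d = some j),
    ← hg.surj.exists (p := fun d => nb j d = some i)]

theorem isBF_fmap (A : BF ι) : IsBF nb (fmap g A) ↔ IsBF (fun i d => nb i (g d)) A := Iff.rfl

theorem fmap_inj (hg : IsFrame g) : Function.Injective (fmap (ι := ι) g) := by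
  rintro ⟨i, d⟩ ⟨j, t⟩ h
  unfold fmap at h
  simp only [Prod.mk.injEq] at h
  exact Prod.ext h.1 (hg.inj h.2)

theorem fmap_surj (hg : IsFrame g) : Function.Surjective (fmap (ι := ι) g) := by
  rintro ⟨i, d⟩
  obtain ⟨t, rfl⟩ := hg.surj d
  exact ⟨(i, t), rfl⟩

theorem bnbr_fmap (hg : IsFrame g) (A : BF ι) (t : Dir) :
    bnbr nb (fmap g A) (g t) =
      (fmap g (bnbr (fun i d => nb i (g d)) A t).1,
        g (bnbr (fun i d => nb i (g d)) A t).2) := by
  obtain ⟨i, d⟩ := A
  unfold bnbr fmap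
  simp only
  cases h1 : nb i (g t) with
  | none => rfl
  | some j =>
    simp only
    cases h2 : nb j (g d) with
    | none =>
      simp only [hg.neg]
    | some k =>
      simp only [hg.neg]

theorem el_fmap (hg : IsFrame g) (y : ι) (d t : Dir) :
    el nb y (g d) (g t) =
      (fmap g (el (fun i d => nb i (g d)) y d t).1,
        g (el (fun i d => nb i (g d)) y d t).2) := by
  unfold el fmap
  simp only
  cases h1 : nb y (g d) with
  | none => rfl
  | some c =>
    simp only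
    cases h2 : nb c (g t) with
    | none =>
      simp only [hg.neg]
    | some k =>
      simp only [hg.neg]

theorem mem_SF_fmap (hg : IsFrame g) (y : ι) (d : Dir) (A : BF ι) :
    fmap g A ∈ SF nb y (g d) ↔ A ∈ SF (fun i d => nb i (g d)) y d := by
  unfold SF
  rw [Set.mem_setOf_eq, Set.mem_setOf_eq, bgraph_comp hg]
  have h1 : fmap g A = (y, g d) ↔ A = (y, d) := by
    constructor
    · intro h
      exact fmap_inj hg h
    · rintro rfl
      rfl
  rw [h1]
  exact Iff.rfl

theorem stOf_map (hg : IsFrame g) (n t : Dir) : stOf (g n) (g t) = stOf n t := by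
  unfold stOf
  rw [← hg.neg]
  have h1 : g n = g t ↔ n = t := hg.inj.eq_iff
  have h2 : g n = g t.neg ↔ n = t.neg := hg.inj.eq_iff
  simp only [h1, h2]

/-- The field of directions, pushed along a frame. -/
noncomputable def pushN (g : Dir → Dir) (N : BF ι → Dir) (A : BF ι) : Dir :=
  g (N (A.1, finv g A.2))

/-- The colours, pushed along a frame. -/
def pushχ (g : Dir → Dir) (χ : ι → (Fin 3 → Bool) → Bool) (i : ι) (k : Fin 3 → Bool) : Bool :=
  χ i (pull g k)

/-- The rank, pushed along a frame. -/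
noncomputable def pushρ (g : Dir → Dir) (ρ : BF ι → ℕ) (A : BF ι) : ℕ :=
  ρ (A.1, finv g A.2)

theorem pushN_fmap (hg : IsFrame g) (N : BF ι → Dir) (A : BF ι) :
    pushN g N (fmap g A) = g (N A) := by
  unfold pushN fmap
  simp only [hg.finv_apply]

theorem pushρ_fmap (hg : IsFrame g) (ρ : BF ι → ℕ) (A : BF ι) :
    pushρ g ρ (fmap g A) = ρ A := by
  unfold pushρ fmap
  simp only [hg.finv_apply]

theorem pushχ_cor (hg : IsFrame g) (χ : ι → (Fin 3 → Bool) → Bool) (i : ι) {d t l : Dir}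
    (h : Perp3 d t l) : pushχ g χ i (cor (g d) (g t) (g l)) = χ i (cor d t l) := by
  unfold pushχ
  rw [hg.pull_cor h]

theorem biSide_fmap (hg : IsFrame g) (χ : ι → (Fin 3 → Bool) → Bool) (A : BF ι) (t : Dir) :
    BiSide (pushχ g χ) (fmap g A) (g t) ↔ BiSide χ A t := by
  obtain ⟨i, d⟩ := A
  unfold BiSide fmap
  simp only
  rw [hg.surj.exists]
  constructor
  · rintro ⟨l, h1, h2⟩
    rw [hg.perp3] at h1
    rw [← hg.neg, pushχ_cor hg χ i h1, pushχ_cor hg χ i (frm_perp3_neg _ _ _ h1).1] at h2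
    exact ⟨l, h1, h2⟩
  · rintro ⟨l, h1, h2⟩
    refine ⟨l, hg.perp3.mpr h1, ?_⟩
    rw [← hg.neg, pushχ_cor hg χ i h1, pushχ_cor hg χ i (frm_perp3_neg _ _ _ h1).1]
    exact h2

theorem nonMono_fmap (hg : IsFrame g) (χ : ι → (Fin 3 → Bool) → Bool) (A : BF ι) :
    (∃ t, BiSide (pushχ g χ) (fmap g A) t) ↔ ∃ t, BiSide χ A t := by
  rw [hg.surj.exists]
  constructor
  · rintro ⟨t, h⟩
    exact ⟨t, (biSide_fmap hg χ A t).mp h⟩
  · rintro ⟨t, h⟩
    exact ⟨t, (biSide_fmap hg χ A t).mpr h⟩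

theorem bbi_fmap (hg : IsFrame g) {χ : ι → (Fin 3 → Bool) → Bool} {A B : BF ι}
    (h : BBi (fun i d => nb i (g d)) χ A B) : BBi nb (pushχ g χ) (fmap g A) (fmap g B) := by
  obtain ⟨h1, t, h2, h3⟩ := h
  refine ⟨h1, g t, (biSide_fmap hg χ A t).mpr h2, ?_⟩
  rw [bnbr_fmap hg, h3]

theorem eqvGen_fmap {α β : Type*} {r : α → α → Prop} {s : β → β → Prop} (f : α → β)
    (h : ∀ a b, r a b → s (f a) (f b)) {a b : α} (hab : EqvGen r a b) :
    EqvGen s (f a) (f b) := by
  induction hab with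
  | rel x y hxy => exact EqvGen.rel _ _ (h _ _ hxy)
  | refl x => exact EqvGen.refl _
  | symm x y _ ih => exact EqvGen.symm _ _ ih
  | trans x y z _ _ ih1 ih2 => exact EqvGen.trans _ _ _ ih1 ih2

theorem neck_push (hg : IsFrame g) {χ : ι → (Fin 3 → Bool) → Bool} {i j : ι} {e : Dir}
    (h : ∀ t l, Perp3 e t l → χ i (cor e t l) = χ j (cor e.neg t l)) :
    ∀ t l, Perp3 (g e) t l →
      pushχ g χ i (cor (g e) t l) = pushχ g χ j (cor (g e).neg t l) := by
  intro t l hp
  obtain ⟨t, rfl⟩ := hg.surj t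
  obtain ⟨l, rfl⟩ := hg.surj l
  rw [hg.perp3] at hp
  have hp' : ∀ d t l : Dir, Perp3 d t l → Perp3 d.neg t l := by decide
  rw [← hg.neg, pushχ_cor hg χ i hp, pushχ_cor hg χ j (hp' _ _ _ hp)]
  exact h t l hp

theorem mono_push (hg : IsFrame g) {χ : ι → (Fin 3 → Bool) → Bool} {i : ι} {d n : Dir}
    (h : ∀ l, Perp3 d n l → χ i (cor d n.neg l) = true → χ i (cor d n l) = true) :
    ∀ l, Perp3 (g d) (g n) l → pushχ g χ i (cor (g d) (g n).neg l) = true →
      pushχ g χ i (cor (g d) (g n) l) = true := by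
  intro l hp
  obtain ⟨l, rfl⟩ := hg.surj l
  rw [hg.perp3] at hp
  rw [← hg.neg, pushχ_cor hg χ i hp, pushχ_cor hg χ i (frm_perp3_neg _ _ _ hp).2]
  exact h l hp

theorem top_push (hg : IsFrame g) {χ : ι → (Fin 3 → Bool) → Bool} {i : ι} {d n : Dir} {b : Bool}
    (h : ∀ l, Perp3 d n l → χ i (cor d n l) = b) :
    ∀ l, Perp3 (g d) (g n) l → pushχ g χ i (cor (g d) (g n) l) = b := by
  intro l hp
  obtain ⟨l, rfl⟩ := hg.surj l
  rw [hg.perp3] at hp
  rw [pushχ_cor hg χ i hp]
  exact h l hp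

theorem bot_push (hg : IsFrame g) {χ : ι → (Fin 3 → Bool) → Bool} {i : ι} {d n : Dir} {b : Bool}
    (h : ∀ l, Perp3 d n l → χ i (cor d n.neg l) = b) :
    ∀ l, Perp3 (g d) (g n) l → pushχ g χ i (cor (g d) (g n).neg l) = b := by
  intro l hp
  obtain ⟨l, rfl⟩ := hg.surj l
  rw [hg.perp3] at hp
  rw [← hg.neg, pushχ_cor hg χ i (frm_perp3_neg _ _ _ hp).2]
  exact h l hp

theorem FaceOK.push (hg : IsFrame g) {N : BF ι → Dir} {χ : ι → (Fin 3 → Bool) → Bool}
    {ρ : BF ι → ℕ} {y : ι} {d : Dir} {A : BF ι}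
    (h : FaceOK (fun i d => nb i (g d)) N χ ρ (SF (fun i d => nb i (g d)) y d) A) :
    FaceOK nb (pushN g N) (pushχ g χ) (pushρ g ρ) (SF nb y (g d)) (fmap g A) := by
  have e1 : bnbr nb (fmap g A) (g (N A)) =
      (fmap g (bnbr (fun i d => nb i (g d)) A (N A)).1,
        g (bnbr (fun i d => nb i (g d)) A (N A)).2) := bnbr_fmap hg A (N A)
  have e2 : bnbr nb (fmap g A) (g (N A)).neg =
      (fmap g (bnbr (fun i d => nb i (g d)) A (N A).neg).1,
        g (bnbr (fun i d => nb i (g d)) A (N A).neg).2) := by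
    rw [← hg.neg]
    exact bnbr_fmap hg A (N A).neg
  refine ⟨?_, ?_, ?_, ?_, ?_⟩
  · rw [pushN_fmap hg]
    show Dir.perp (g A.2) (g (N A)) = true
    rw [hg.perp]
    exact h.perp
  · rw [pushN_fmap hg]
    exact mono_push hg h.mono
  · rw [pushN_fmap hg, e1]
    simp only
    rw [mem_SF_fmap hg, pushN_fmap hg, ← hg.neg]
    intro h1 h2
    exact top_push hg (h.top h1 (fun h3 => h2 (by rw [h3])))
  · rw [pushN_fmap hg, e2]
    simp only
    rw [mem_SF_fmap hg, pushN_fmap hg]
    intro h1 h2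
    exact bot_push hg (h.bot h1 (fun h3 => h2 (by rw [h3])))
  · rw [pushN_fmap hg, e1]
    simp only
    rw [mem_SF_fmap hg, pushN_fmap hg, ← hg.neg, pushρ_fmap hg, pushρ_fmap hg]
    intro h1 h2
    exact h.rank h1 (hg.inj h2)

theorem Realz.push (hg : IsFrame g) {N : BF ι → Dir} {χ : ι → (Fin 3 → Bool) → Bool}
    {ρ : BF ι → ℕ} {y : ι} {d : Dir} {st st1 : Dir → St}
    (h : Realz (fun i d => nb i (g d)) y d st N χ ρ) (hst : ∀ t, st1 (g t) = st t) :
    Realz nb y (g d) st1 (pushN g N) (pushχ g χ) (pushρ g ρ) := by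
  have hec : ∀ t, Dir.perp d t = true → ecol (pushχ g χ y) (g d) (g t) = ecol (χ y) d t :=
    fun t ht => hg.ecol_map ht (fun l hl => pushχ_cor hg χ y hl)
  refine ⟨?_, ?_, ?_, ?_, ?_⟩
  · intro A hA
    obtain ⟨A, rfl⟩ := fmap_surj hg A
    rw [mem_SF_fmap hg] at hA
    exact (h.face A hA).push hg
  · intro c hc i hi e j he
    obtain ⟨e, rfl⟩ := hg.surj e
    refine neck_push hg (h.neck c hc i ?_ e j he)
    rw [bgraph_comp hg]
    exact hi
  · intro t ht
    obtain ⟨t, rfl⟩ := hg.surj t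
    rw [hg.perp] at ht
    rw [hec t ht, hst, el_fmap hg]
    simp only
    rw [pushN_fmap hg, stOf_map hg]
    exact h.clm t ht
  · intro A hA hA2 t ht he
    obtain ⟨A, rfl⟩ := fmap_surj hg A
    obtain ⟨t, rfl⟩ := hg.surj t
    rw [hg.perp] at ht
    rw [mem_SF_fmap hg] at hA
    rw [hec t ht] at he
    have h1 := h.conn A hA ((nonMono_fmap hg χ A).mp hA2) t ht he
    rw [el_fmap hg]
    simp only
    refine eqvGen_fmap (fmap g) ?_ h1
    rintro a b ⟨h2, h3, h4⟩
    exact ⟨bbi_fmap hg h2, (mem_SF_fmap hg y d a).mpr h3, (mem_SF_fmap hg y d b).mpr h4⟩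
  · intro hne
    obtain ⟨t, ht, he⟩ := h.cross hne
    exact ⟨g t, by rw [hg.perp]; exact ht, by rw [hec t ht]; exact he⟩

/-- Realizations of a side are transported along a frame. -/
theorem SideReal.push (hg : IsFrame g) {y : ι} {d : Dir} {χ0 χ1 : (Fin 3 → Bool) → Bool}
    {st st1 : Dir → St} (h : SideReal (fun i d => nb i (g d)) y d χ0 st)
    (hchi : ∀ t l, Perp3 d t l → χ1 (cor (g d) (g t) (g l)) = χ0 (cor d t l))
    (hst : ∀ t, st1 (g t) = st t) : SideReal nb y (g d) χ1 st1 := by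
  obtain ⟨N, χ, ρ, h1, h2⟩ := h
  refine ⟨pushN g N, pushχ g χ, pushρ g ρ, ?_, h2.push hg hst⟩
  intro t l hp
  obtain ⟨t, rfl⟩ := hg.surj t
  obtain ⟨l, rfl⟩ := hg.surj l
  rw [hg.perp3] at hp
  rw [pushχ_cor hg χ y hp, h1 t l hp, hchi t l hp]

/-- Closed ladders are transported along a frame. -/
theorem BField.push (hg : IsFrame g) {N : BF ι → Dir} {χ : ι → (Fin 3 → Bool) → Bool}
    {ρ : BF ι → ℕ} (h : BField (fun i d => nb i (g d)) N χ ρ) :
    ∃ N' χ' ρ', BField nb N' χ' ρ' := by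
  refine ⟨pushN g N, pushχ g χ, pushρ g ρ, ?_, ?_, ?_, ?_, ?_, ?_, ?_⟩
  · intro A hA
    obtain ⟨A, rfl⟩ := fmap_surj hg A
    rw [pushN_fmap hg]
    show Dir.perp (g A.2) (g (N A)) = true
    rw [hg.perp]
    exact h.perp A hA
  · intro i d j hd
    obtain ⟨d, rfl⟩ := hg.surj d
    exact neck_push hg (h.neck i d j hd)
  · intro A hA
    obtain ⟨A, rfl⟩ := fmap_surj hg A
    rw [pushN_fmap hg]
    exact mono_push hg (h.mono A hA)
  · intro A hA
    obtain ⟨A, rfl⟩ := fmap_surj hg A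
    rw [pushN_fmap hg, bnbr_fmap hg]
    simp only
    rw [pushN_fmap hg, ← hg.neg]
    intro h2
    exact top_push hg (h.top A hA (fun h3 => h2 (by rw [h3])))
  · intro A hA
    obtain ⟨A, rfl⟩ := fmap_surj hg A
    rw [pushN_fmap hg, ← hg.neg, bnbr_fmap hg]
    simp only
    rw [pushN_fmap hg, hg.neg]
    intro h2
    exact bot_push hg (h.bot A hA (fun h3 => h2 (by rw [h3])))
  · intro A hA
    obtain ⟨A, rfl⟩ := fmap_surj hg A
    rw [pushN_fmap hg, bnbr_fmap hg]
    simp only
    rw [pushN_fmap hg, ← hg.neg, pushρ_fmap hg, pushρ_fmap hg]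
    intro h2
    exact h.rank A hA (hg.inj h2)
  · intro A B hA hB hA2 hB2
    obtain ⟨A, rfl⟩ := fmap_surj hg A
    obtain ⟨B, rfl⟩ := fmap_surj hg B
    exact eqvGen_fmap (fmap g) (fun a b hab => bbi_fmap hg hab)
      (h.conn A B hA hB ((nonMono_fmap hg χ A).mp hA2) ((nonMono_fmap hg χ B).mp hB2))

end transport

section exist

/-- The frame with given images of the positive directions. -/
def mkFrame (a b c : Dir) : Dir → Dir
  | Dir.px => a | Dir.nx => a.neg
  | Dir.py => b | Dir.ny => b.neg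
  | Dir.pz => c | Dir.nz => c.neg

theorem mkFrame_isFrame : ∀ a b c : Dir, Perp3 a b c → IsFrame (mkFrame a b c) := by
  intro a b c h
  have h1 : ∀ a b c : Dir, Perp3 a b c → ∀ d t : Dir,
      Dir.perp (mkFrame a b c d) (mkFrame a b c t) = Dir.perp d t := by decide
  refine ⟨fun d => ?_, h1 a b c h⟩
  cases d
  · rfl
  · exact (Dir.neg_neg a).symm
  · rfl
  · exact (Dir.neg_neg b).symm
  · rfl
  · exact (Dir.neg_neg c).symm

/-- Every direction can be made the direction `pz` of a frame. -/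
theorem exists_frame (u : Dir) : ∃ g : Dir → Dir, IsFrame g ∧ g Dir.pz = u := by
  have h : ∀ u : Dir, ∃ a b : Dir, Perp3 a b u := by decide
  obtain ⟨a, b, hab⟩ := h u
  exact ⟨mkFrame a b u, mkFrame_isFrame a b u hab, rfl⟩

end exist

end Pool.Agent.Helper69.OT
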