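import Pool.Agent.Helper69.OT.Spec

/-!
# Soundness of the check of a witness (project OT, MP_409f7f_co)
-/

set_option autoImplicit false

namespace Pool.Agent.Helper69.OT

open Pool.Agent.Helper17.UF Pool.Agent.Helper26.OT

/-- Position of a half-edge. -/
def hp (s j : ℕ) : ℕ :=
  (([[0, 1, 2, 3], [4, 5, 6, 7], [18, 8, 13, 9], [10, 15, 11, 16], [23, 14, 20, 17],
    [19, 21, 12, 22]] : List (List ℕ)).getD s []).getD j 24

/-- First side of an edge. -/
def fsE (e : ℕ) : ℕ := ([0, 0, 0, 0, 1, 1, 1, 1, 2, 2, 3, 3] : List ℕ).getD e 0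

/-- Second side of an edge. -/
def ssE (e : ℕ) : ℕ := ([5, 2, 4, 3, 3, 4, 2, 5, 4, 5, 5, 4] : List ℕ).getD e 0

/-- First end of an edge. -/
def enA (e : ℕ) : ℕ := ([1, 3, 5, 1, 0, 4, 2, 0, 6, 2, 0, 4] : List ℕ).getD e 0

/-- Second end of an edge. -/
def enB (e : ℕ) : ℕ := ([3, 7, 7, 5, 4, 6, 6, 2, 7, 3, 1, 5] : List ℕ).getD e 0

/-- The values of a permutation with given Lehmer code. -/
def lehm : List ℕ → List ℕ → List ℕ
  | [], _ => []
  | d :: ds, L => L.getD d 0 :: lehm ds (L.eraseIdx d)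

/-- The order number `o`. -/
def ordF (o i : ℕ) : ℕ :=
  if o < 120 then (lehm [o / 24, o % 24 / 6, o % 6 / 2, o % 2, 0] [0, 1, 2, 3, 4]).getD i 0 else i

/-- Colour of an edge with ends of colours `b1`, `b2` (`true`: black). -/
def colb (b1 b2 : Bool) : Option Bool := if b1 = b2 then some (!b1) else none

/-- The expression of `okE`, one bit. -/
def eb (xT xA yT yA b1 b2 gt : Bool) : Bool :=
  ((b1 ^^ b2) && ((xT ^^ yA) || (xA ^^ yT))) ||
  (((b1 && b2) && ((xT || yT) && !(xA || yA))) ||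
    ((!(b1 || b2) && ((xA || yA) && !(xT || yT))) ||
      ((!gt && (((b1 || b2) && xT) || (!(b1 || b2) && yA))) ||
        (gt && (((b1 || b2) && yT) || (!(b1 || b2) && xA))))))

/-- The expression of `okR`, one bit. -/
def rb (xT xA yT yA b1 b2 : Bool) : Bool :=
  ((b1 ^^ b2) && ((xT ^^ yT) || (xA ^^ yA))) ||
  (((b1 && b2) && ((yA && !xA) || (xT && !yT))) ||
    (!(b1 || b2) && ((yT && !xT) || (xA && !yA))))

theorem eb_sound : ∀ X < 3, ∀ Y < 3, ∀ b1 b2 gt : Bool,
    eb (X == 0) (X == 1) (Y == 0) (Y == 1) b1 b2 gt = false →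
    (edgeC (colb b1 b2) (toSt X) (toSt Y) = true ∧ edgeC (colb b1 b2) (toSt Y) (toSt X) = true) ∧
    (flowC (colb b1 b2) (toSt X) (toSt Y) = true → gt = true) ∧
    (flowC (colb b1 b2) (toSt Y) (toSt X) = true → gt = false) := by
  intro X hX Y hY
  interval_cases X <;> interval_cases Y <;> decide

theorem rb_sound : ∀ X < 3, ∀ Y < 3, ∀ b1 b2 : Bool,
    rb (X == 0) (X == 1) (Y == 0) (Y == 1) b1 b2 = false →
    cle (colb b1 b2) (toSt Y) (toSt X) = true := by
  intro X hX Y hY
  interval_cases X <;> interval_cases Y <;> decide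

theorem colb_comm (b1 b2 : Bool) : colb b1 b2 = colb b2 b1 := by
  cases b1 <;> cases b2 <;> rfl

theorem dg_lt (c j : ℕ) : dg c j < 3 := Nat.mod_lt _ (by norm_num)

/-! ### Tables -/

/-- Check of the table of the colourings. -/
def tabS (σ : ℕ) : Bool :=
  ((List.range 6).all fun s =>
    Nat.land (Nat.shiftRight (row tSG 64 0xffffffffffffffff σ) (4 * s)) 15 == ringOf σ s) &&
  ((List.range 12).all fun e =>
    ((row tSG 64 0xffffffffffffffff σ).testBit (24 + e) == σ.testBit (enA e)) &&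
    ((row tSG 64 0xffffffffffffffff σ).testBit (36 + e) == σ.testBit (enB e))) &&
  (!(row tSG 64 0xffffffffffffffff σ).testBit 48 || (bondT.testBit σ &&
    ((List.range 4).any fun j => col σ 5 j == none)))

theorem tabS_all : ((List.range 256).all fun σ => tabS σ) = true := by
  decide +kernel

/-- Check of the table of the positions. -/
def tabH (s c : ℕ) : Bool :=
  (List.range 6).all fun t => (List.range 4).all fun j =>
    ((rowH s c).testBit (hp t j) == (s == t && dg c j == 0)) &&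
    ((rowH s c).testBit (24 + hp t j) == (s == t && dg c j == 1))

theorem tabH_all : ((List.range 6).all fun s => (List.range 81).all fun c => tabH s c) = true := by
  decide +kernel

/-- Check of the table of the orders. -/
def tabO (o : ℕ) : Bool :=
  (List.range 12).all fun e => !(Nat.testBit 0x97e e) ||
    (((row tORD 12 0xfff o).testBit e == decide (ordF o (ssE e) < ordF o (fsE e))) &&
      !(ordF o (ssE e) == ordF o (fsE e)))

theorem tabO_all : ((List.range 128).all fun o => tabO o) = true := by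
  decide +kernel

/-- Check of the half-edges. -/
def tabE (s j : ℕ) : Bool :=
  let t := adjE s j
  let k := jOf t s
  let e := hp s j % 12
  k < 4 && t < 6 && e < 12 &&
  ((hp s j == e && hp t k == 12 + e && fsE e == s && ssE e == t) ||
    (hp s j == 12 + e && hp t k == e && fsE e == t && ssE e == s)) &&
  ((cyc s j == enA e && cyc s (j + 1) == enB e) || (cyc s j == enB e && cyc s (j + 1) == enA e)) &&
  (if s < 5 && t < 5 then Nat.testBit 0x97e e else Nat.testBit 0x681 e)

theorem tabE_all : ((List.range 6).all fun s => (List.range 4).all fun j => tabE s j) = true := by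
  decide +kernel

theorem tabE5 : ((List.range 4).all fun j => hp 5 j == 12 + hp 5 j % 12) = true := by
  decide +kernel

/-! ### Using the tables -/

theorem tabS_of {σ : ℕ} (h : σ < 256) : tabS σ = true := by
  have := tabS_all
  rw [List.all_eq_true] at this
  exact this σ (List.mem_range.mpr h)

theorem tabH_of {s c : ℕ} (hs : s < 6) (hc : c < 81) : tabH s c = true := by
  have := tabH_all
  rw [List.all_eq_true] at this
  have h1 := this s (List.mem_range.mpr hs)
  rw [List.all_eq_true] at h1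
  exact h1 c (List.mem_range.mpr hc)

theorem tabO_of {o : ℕ} (h : o < 128) : tabO o = true := by
  have := tabO_all
  rw [List.all_eq_true] at this
  exact this o (List.mem_range.mpr h)

theorem tabE_of {s j : ℕ} (hs : s < 6) (hj : j < 4) : tabE s j = true := by
  have := tabE_all
  rw [List.all_eq_true] at this
  have h1 := this s (List.mem_range.mpr hs)
  rw [List.all_eq_true] at h1
  exact h1 j (List.mem_range.mpr hj)

theorem rowH_bit {s c t j : ℕ} (hs : s < 6) (hc : c < 81) (ht : t < 6) (hj : j < 4) :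
    (rowH s c).testBit (hp t j) = (s == t && dg c j == 0) ∧
    (rowH s c).testBit (24 + hp t j) = (s == t && dg c j == 1) := by
  have h := tabH_of hs hc
  unfold tabH at h
  rw [List.all_eq_true] at h
  have h1 := h t (List.mem_range.mpr ht)
  rw [List.all_eq_true] at h1
  have h2 := h1 j (List.mem_range.mpr hj)
  rw [Bool.and_eq_true, beq_iff_eq, beq_iff_eq] at h2
  exact h2

/-- The positions of all sides together. -/
def rowA (c : ℕ → ℕ) : ℕ :=
  Nat.lor (rowH 0 (c 0)) (Nat.lor (rowH 1 (c 1)) (Nat.lor (rowH 2 (c 2)) (Nat.lor (rowH 3 (c 3))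
    (Nat.lor (rowH 4 (c 4)) (rowH 5 (c 5))))))

theorem testBit_lor' (a b i : ℕ) : (Nat.lor a b).testBit i = (a.testBit i || b.testBit i) :=
  Nat.testBit_or a b i

theorem testBit_land' (a b i : ℕ) : (Nat.land a b).testBit i = (a.testBit i && b.testBit i) :=
  Nat.testBit_and a b i

theorem testBit_xor' (a b i : ℕ) : (Nat.xor a b).testBit i = (a.testBit i ^^ b.testBit i) :=
  Nat.testBit_xor a b i

theorem testBit_shr' (a b i : ℕ) : (Nat.shiftRight a b).testBit i = a.testBit (b + i) :=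
  Nat.testBit_shiftRight a

theorem rowA_bit {c : ℕ → ℕ} (hc : ∀ s < 6, c s < 81) {t j : ℕ} (ht : t < 6) (hj : j < 4) :
    (rowA c).testBit (hp t j) = (dg (c t) j == 0) ∧
    (rowA c).testBit (24 + hp t j) = (dg (c t) j == 1) := by
  have h0 := rowH_bit (s := 0) (by norm_num) (hc 0 (by norm_num)) ht hj
  have h1 := rowH_bit (s := 1) (by norm_num) (hc 1 (by norm_num)) ht hj
  have h2 := rowH_bit (s := 2) (by norm_num) (hc 2 (by norm_num)) ht hj
  have h3 := rowH_bit (s := 3) (by norm_num) (hc 3 (by norm_num)) ht hj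
  have h4 := rowH_bit (s := 4) (by norm_num) (hc 4 (by norm_num)) ht hj
  have h5 := rowH_bit (s := 5) (by norm_num) (hc 5 (by norm_num)) ht hj
  unfold rowA
  simp only [testBit_lor', h0.1, h1.1, h2.1, h3.1, h4.1, h5.1, h0.2, h1.2, h2.2, h3.2, h4.2, h5.2]
  interval_cases t <;> simp

theorem fff_bit {e : ℕ} (he : e < 12) : Nat.testBit 0xfff e = true := by
  interval_cases e <;> rfl

theorem okE_bit {XT XA YT YA S1 S2 GT e : ℕ} (h : okE XT XA YT YA S1 S2 GT = true) (he : e < 12)
    (hm : Nat.testBit 0x97e e = true) :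
    eb (XT.testBit e) (XA.testBit e) (YT.testBit e) (YA.testBit e) (S1.testBit e) (S2.testBit e)
      (GT.testBit e) = false := by
  unfold okE at h
  have h1 := Nat.eq_of_beq_eq_true h
  have h2 := congrArg (fun n => Nat.testBit n e) h1
  simp only [testBit_lor', testBit_land', testBit_xor', fff_bit he, hm, Nat.zero_testBit,
    Bool.true_and, Bool.true_bne] at h2
  unfold eb
  simpa using h2

theorem okR_bit {XT XA YT YA S1 S2 e : ℕ} (h : okR XT XA YT YA S1 S2 = true) (he : e < 12)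
    (hm : Nat.testBit 0x681 e = true) :
    rb (XT.testBit e) (XA.testBit e) (YT.testBit e) (YA.testBit e) (S1.testBit e) (S2.testBit e)
      = false := by
  unfold okR at h
  have h1 := Nat.eq_of_beq_eq_true h
  have h2 := congrArg (fun n => Nat.testBit n e) h1
  simp only [testBit_lor', testBit_land', testBit_xor', fff_bit he, hm, Nat.zero_testBit,
    Bool.true_and, Bool.true_bne] at h2
  unfold rb
  simpa using h2

theorem beq0_lt (w m k : ℕ) (hk : m < k) : Nat.land w m < k :=
  lt_of_le_of_lt (Nat.and_le_right) hk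

theorem okW_sound {w g0 g1 g2 g3 g4 : ℕ} (h : okW w g0 g1 g2 g3 g4 = true) :
    (∃ ord : ℕ → ℕ, WOK (wS w) (wC w) ord) ∧
    Nat.land g0 (rowC (81 * ringOf (wS w) 0 + wC w 0)) = g0 ∧
    Nat.land g1 (rowC (81 * ringOf (wS w) 1 + wC w 1)) = g1 ∧
    Nat.land g2 (rowC (81 * ringOf (wS w) 2 + wC w 2)) = g2 ∧
    Nat.land g3 (rowC (81 * ringOf (wS w) 3 + wC w 3)) = g3 ∧
    Nat.land g4 (rowC (81 * ringOf (wS w) 4 + wC w 4)) = g4 ∧
    tgtR w = ringOf (wS w) 5 ∧ ringOf (wS w) 5 < 16 ∧ wC w 5 < 81 := by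
  unfold okW okW2 at h
  simp only [Bool.and_eq_true] at h
  obtain ⟨⟨⟨⟨⟨⟨⟨hb, h5⟩, hg0⟩, hg1⟩, hg2⟩, hg3⟩, hg4⟩, hH⟩ := h
  have hσ : wS w < 256 := beq0_lt _ _ _ (by norm_num)
  have ho : wO w < 128 := beq0_lt _ _ _ (by norm_num)
  -- the table of the colourings
  have hT := tabS_of hσ
  unfold tabS at hT
  simp only [Bool.and_eq_true, List.all_eq_true, List.mem_range, beq_iff_eq] at hT
  obtain ⟨⟨hring, hends⟩, hbond⟩ := hT
  change ∀ s < 6, Nat.land (Nat.shiftRight (wR w) (4 * s)) 15 = ringOf (wS w) s at hring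
  change ∀ e < 12, (wR w).testBit (24 + e) = (wS w).testBit (enA e) ∧
    (wR w).testBit (36 + e) = (wS w).testBit (enB e) at hends
  change (!(wR w).testBit 48 || (bondT.testBit (wS w) &&
    ((List.range 4).any fun j => col (wS w) 5 j == none))) = true at hbond
  rw [hb] at hbond
  simp only [Bool.not_true, Bool.false_or, Bool.and_eq_true, List.any_eq_true, List.mem_range,
    beq_iff_eq] at hbond
  obtain ⟨hbd, hbi⟩ := hbond
  unfold okG at hg0 hg1 hg2 hg3 hg4
  rw [Bool.and_eq_true] at hg0 hg1 hg2 hg3 hg4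
  have c0 : wC w 0 < 81 := Nat.lt_succ_of_le (Nat.le_of_ble_eq_true hg0.1)
  have c1 : wC w 1 < 81 := Nat.lt_succ_of_le (Nat.le_of_ble_eq_true hg1.1)
  have c2 : wC w 2 < 81 := Nat.lt_succ_of_le (Nat.le_of_ble_eq_true hg2.1)
  have c3 : wC w 3 < 81 := Nat.lt_succ_of_le (Nat.le_of_ble_eq_true hg3.1)
  have c4 : wC w 4 < 81 := Nat.lt_succ_of_le (Nat.le_of_ble_eq_true hg4.1)
  have c5 : wC w 5 < 81 := Nat.lt_succ_of_le (Nat.le_of_ble_eq_true h5)
  have hc : ∀ s < 6, wC w s < 81 := by
    intro s hs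
    interval_cases s <;> assumption
  have r0 : Nat.land (wR w) 15 = ringOf (wS w) 0 := hring 0 (by norm_num)
  have r1 : Nat.land (Nat.shiftRight (wR w) 4) 15 = ringOf (wS w) 1 := hring 1 (by norm_num)
  have r2 : Nat.land (Nat.shiftRight (wR w) 8) 15 = ringOf (wS w) 2 := hring 2 (by norm_num)
  have r3 : Nat.land (Nat.shiftRight (wR w) 12) 15 = ringOf (wS w) 3 := hring 3 (by norm_num)
  have r4 : Nat.land (Nat.shiftRight (wR w) 16) 15 = ringOf (wS w) 4 := hring 4 (by norm_num)
  have r5 : tgtR w = ringOf (wS w) 5 := hring 5 (by norm_num)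
  rw [r0] at hg0
  rw [r1] at hg1
  rw [r2] at hg2
  rw [r3] at hg3
  rw [r4] at hg4
  have hr5 : ringOf (wS w) 5 < 16 := by
    rw [← r5]
    exact beq0_lt _ _ _ (by norm_num)
  refine ⟨?_, Nat.eq_of_beq_eq_true hg0.2, Nat.eq_of_beq_eq_true hg1.2,
    Nat.eq_of_beq_eq_true hg2.2, Nat.eq_of_beq_eq_true hg3.2, Nat.eq_of_beq_eq_true hg4.2,
    r5, hr5, c5⟩
  -- the edges
  change okH (rowA (wC w)) (Nat.land (Nat.shiftRight (wR w) 24) 0xfff)
    (Nat.land (Nat.shiftRight (wR w) 36) 0xfff) (row tORD 12 0xfff (wO w)) = true at hH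
  unfold okH at hH
  rw [Bool.and_eq_true] at hH
  obtain ⟨hE, hR⟩ := hH
  have hO := tabO_of ho
  unfold tabO at hO
  rw [List.all_eq_true] at hO
  have S1 : ∀ e < 12, (Nat.land (Nat.shiftRight (wR w) 24) 0xfff).testBit e =
      (wS w).testBit (enA e) := by
    intro e he
    rw [testBit_land', testBit_shr', fff_bit he, Bool.and_true]
    exact (hends e he).1
  have S2 : ∀ e < 12, (Nat.land (Nat.shiftRight (wR w) 36) 0xfff).testBit e =
      (wS w).testBit (enB e) := by
    intro e he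
    rw [testBit_land', testBit_shr', fff_bit he, Bool.and_true]
    exact (hends e he).2
  have B0 : ∀ e < 12, (Nat.land (rowA (wC w)) 0xfff).testBit e = (rowA (wC w)).testBit e := by
    intro e he
    rw [testBit_land', fff_bit he, Bool.and_true]
  have Bk : ∀ k, ∀ e < 12, (Nat.land (Nat.shiftRight (rowA (wC w)) k) 0xfff).testBit e =
      (rowA (wC w)).testBit (k + e) := by
    intro k e he
    rw [testBit_land', testBit_shr', fff_bit he, Bool.and_true]
  -- one edge, from its first half-edge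
  have key : ∀ s t j k e, s < 6 → t < 6 → j < 4 → k < 4 → e < 12 → hp s j = e → hp t k = 12 + e →
      ((Nat.testBit 0x97e e = true →
        eb (dg (wC w s) j == 0) (dg (wC w s) j == 1) (dg (wC w t) k == 0) (dg (wC w t) k == 1)
          ((wS w).testBit (enA e)) ((wS w).testBit (enB e))
          (decide (ordF (wO w) (ssE e) < ordF (wO w) (fsE e))) = false ∧
          ordF (wO w) (ssE e) ≠ ordF (wO w) (fsE e)) ∧
      (Nat.testBit 0x681 e = true →
        rb (dg (wC w s) j == 0) (dg (wC w s) j == 1) (dg (wC w t) k == 0) (dg (wC w t) k == 1)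
          ((wS w).testBit (enA e)) ((wS w).testBit (enB e)) = false)) := by
    intro s t j k e hs ht hj hk he h1 h2
    obtain ⟨a1, a2⟩ := rowA_bit hc hs hj
    obtain ⟨a3, a4⟩ := rowA_bit hc ht hk
    rw [h1] at a1 a2
    rw [h2] at a3 a4
    have a4' : (rowA (wC w)).testBit (36 + e) = (dg (wC w t) k == 1) := by
      rw [← a4]
      congr 1
      omega
    constructor
    · intro hm
      have hx := okE_bit hE he hm
      have ho1 := hO e (List.mem_range.mpr he)
      rw [hm] at ho1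
      simp only [Bool.not_true, Bool.false_or, Bool.and_eq_true, beq_iff_eq,
        Bool.not_eq_true', beq_eq_false_iff_ne, ne_eq] at ho1
      rw [B0 e he, Bk 24 e he, Bk 12 e he, Bk 36 e he, a1, a2, a3, a4', S1 e he, S2 e he,
        ho1.1] at hx
      exact ⟨hx, ho1.2⟩
    · intro hm
      have hx := okR_bit hR he hm
      rw [B0 e he, Bk 24 e he, Bk 12 e he, Bk 36 e he, a1, a2, a3, a4', S1 e he, S2 e he] at hx
      exact hx
  -- colours of the edges
  have hcol : ∀ s j e, ((cyc s j = enA e ∧ cyc s (j + 1) = enB e) ∨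
      (cyc s j = enB e ∧ cyc s (j + 1) = enA e)) →
      col (wS w) s j = colb ((wS w).testBit (enA e)) ((wS w).testBit (enB e)) := by
    intro s j e h
    unfold col colb
    rcases h with ⟨x1, x2⟩ | ⟨x1, x2⟩
    · rw [x1, x2]
    · rw [x1, x2]
      by_cases hh : (wS w).testBit (enB e) = (wS w).testBit (enA e)
      · rw [if_pos hh, if_pos hh.symm, hh]
      · rw [if_neg hh, if_neg (fun h' => hh h'.symm)]
  have main : ∀ s < 5, ∀ j < 4, adjE s j < 5 →
      edgeC (col (wS w) s j) (toSt (dg (wC w s) j))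
        (toSt (dg (wC w (adjE s j)) (jOf (adjE s j) s))) = true ∧
      (flowC (col (wS w) s j) (toSt (dg (wC w s) j))
        (toSt (dg (wC w (adjE s j)) (jOf (adjE s j) s))) = true →
        ordF (wO w) (adjE s j) < ordF (wO w) s) := by
    intro s hs j hj ht
    have hs6 : s < 6 := by omega
    have hE1 := tabE_of hs6 hj
    unfold tabE at hE1
    simp only [Bool.and_eq_true, Bool.or_eq_true, beq_iff_eq, decide_eq_true_eq] at hE1
    obtain ⟨⟨⟨⟨⟨hk, ht6⟩, he⟩, hcase⟩, hcy⟩, hmask⟩ := hE1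
    rw [if_pos ⟨hs, ht⟩] at hmask
    rw [hcol s j _ hcy]
    rcases hcase with ⟨⟨⟨e1, e2⟩, e3⟩, e4⟩ | ⟨⟨⟨e1, e2⟩, e3⟩, e4⟩
    · obtain ⟨hx, hne⟩ := (key s _ j _ _ hs6 ht6 hj hk he e1 e2).1 hmask
      obtain ⟨⟨y1, y2⟩, y3, y4⟩ := eb_sound _ (dg_lt _ _) _ (dg_lt _ _) _ _ _ hx
      refine ⟨y1, fun hf => ?_⟩
      have := y3 hf
      rw [decide_eq_true_eq, e3, e4] at this
      exact this
    · obtain ⟨hx, hne⟩ := (key _ s _ j _ ht6 hs6 hk hj he e2 e1).1 hmask
      obtain ⟨⟨y1, y2⟩, y3, y4⟩ := eb_sound _ (dg_lt _ _) _ (dg_lt _ _) _ _ _ hx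
      refine ⟨y2, fun hf => ?_⟩
      have := y4 hf
      rw [decide_eq_false_iff_not, e3, e4] at this
      rw [e3, e4] at hne
      omega
  refine ⟨ordF (wO w), ⟨hσ, hbd, hc, fun s hs j hj ht => (main s hs j hj ht).1,
    fun s hs j hj ht => (main s hs j hj ht).2, hbi, ?_⟩⟩
  intro j hj
  have hE1 := tabE_of (s := 5) (by norm_num) hj
  unfold tabE at hE1
  simp only [Bool.and_eq_true, Bool.or_eq_true, beq_iff_eq, decide_eq_true_eq] at hE1
  obtain ⟨⟨⟨⟨⟨hk, ht6⟩, he⟩, hcase⟩, hcy⟩, hmask⟩ := hE1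
  rw [if_neg (by omega)] at hmask
  have h5 := tabE5
  rw [List.all_eq_true] at h5
  have h5j := h5 j (List.mem_range.mpr hj)
  rw [beq_iff_eq] at h5j
  rw [hcol 5 j _ hcy]
  rcases hcase with ⟨⟨⟨e1, e2⟩, e3⟩, e4⟩ | ⟨⟨⟨e1, e2⟩, e3⟩, e4⟩
  · omega
  · exact rb_sound _ (dg_lt _ _) _ (dg_lt _ _) _ _
      ((key _ 5 _ j _ ht6 (by norm_num) hk hj he e2 e1).2 hmask)

end Pool.Agent.Helper69.OT
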